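import Mathlib

set_option autoImplicit false

namespace Pool.Agent.Results.MP_f8e91b_al.Counter

/-- minimal rank of a completion of the entries of `a` indexed by `J` -/
noncomputable def mr {F α β : Type} [Field F] [Fintype β] (J : Set (α × β)) (a : α → β → F) : ℕ :=
  sInf {r | ∃ B : Matrix α β F, (∀ p ∈ J, B p.1 p.2 = a p.1 p.2) ∧ B.rank = r}

def Triangular {α β : Type} (T : Set (α × β)) : Prop :=
  ∀ p ∈ T, ∀ q ∈ T, (p.1, q.2) ∈ T ∨ (q.1, p.2) ∈ T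

def MaxTri {α β : Type} (J T : Set (α × β)) : Prop :=
  T ⊆ J ∧ Triangular T ∧ ∀ S, T ⊆ S → S ⊆ J → Triangular S → S = T

noncomputable def tmr {F α β : Type} [Field F] [Fintype β] (J : Set (α × β)) (a : α → β → F) : ℕ :=
  sSup {r | ∃ T, MaxTri J T ∧ r = mr T a}

/-- minimal rank of the partial block matrix with blocks of size `b` -/
noncomputable def mrb {F α β : Type} [Field F] [Fintype β] (J : Set (α × β)) (a : α → β → F)
    (b : ℕ) : ℕ :=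
  mr {p : (α × Fin b) × (β × Fin b) | (p.1.1, p.2.1) ∈ J}
    fun u v => if u.2 = v.2 then a u.1 v.1 else 0

noncomputable def fmr {F α β : Type} [Field F] [Fintype β] (J : Set (α × β)) (a : α → β → F) : ℝ :=
  sInf {x | ∃ b : ℕ, 1 ≤ b ∧ x = (mrb J a b : ℝ) / b}

def kn (i j : Fin 15) : Bool :=
  (10 ≤ i.1 && 10 ≤ j.1) ||
    (i.1 < 10 && j.1 < 10 && (i.1 / 5 != j.1 / 5 || ((i.1 + 1) % 5 != j.1 % 5 && (j.1 + 1) % 5 != i.1 % 5)))

def J0 : Set (Fin 15 × Fin 15) := {p | kn p.1 p.2 = true}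
def T0 : Set (Fin 15 × Fin 15) := {p | 10 ≤ p.1.1 ∧ 10 ≤ p.2.1}
def a0 (F : Type) [Field F] (i j : Fin 15) : F := if i = j then 1 else 0

def col (u : Fin 15 × Fin 2) : Fin 10 :=
  if 10 ≤ u.1.1 then Fin.ofNat 10 (2 * (u.1.1 - 10) + u.2.1)
  else Fin.ofNat 10 (5 * (u.1.1 / 5) + (u.1.1 + 4 * u.2.1) % 5)

lemma kcol : ∀ u v : Fin 15 × Fin 2, kn u.1 v.1 = true →
    (col u = col v ↔ u.2 = v.2 ∧ u.1 = v.1) := by decide +kernel

lemma mr_le {F α β : Type} [Field F] [Fintype β] (J : Set (α × β)) (a : α → β → F)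
    (B : Matrix α β F) (h : ∀ p ∈ J, B p.1 p.2 = a p.1 p.2) : mr J a ≤ B.rank :=
  Nat.sInf_le ⟨B, h, rfl⟩

lemma le_mr {F α β : Type} [Field F] [Fintype β] (J : Set (α × β)) (a : α → β → F) (k : ℕ)
    (h : ∀ B : Matrix α β F, (∀ p ∈ J, B p.1 p.2 = a p.1 p.2) → k ≤ B.rank) : k ≤ mr J a := by
  refine le_csInf ⟨_, Matrix.of a, fun _ _ => rfl, rfl⟩ ?_
  rintro r ⟨B, hB, rfl⟩
  exact h B hB

lemma rk {F α β γ : Type} [Field F] [Fintype β] [Fintype γ] [DecidableEq γ] (B : Matrix α β F)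
    (r : γ → α) (c : γ → β) (h : (B.submatrix r c).det ≠ 0) : Fintype.card γ ≤ B.rank := by
  rw [← Matrix.rank_of_isUnit _ ((Matrix.isUnit_iff_isUnit_det _).2 (Ne.isUnit h))]
  exact Matrix.rank_submatrix_le B r c

lemma fm (F : Type) [Field F] : fmr J0 (a0 F) ≤ 5 := by
  have h : mrb J0 (a0 F) 2 ≤ 10 := by
    let Q : Matrix (Fin 15 × Fin 2) (Fin 10) F := fun u k => if col u = k then 1 else 0
    refine (mr_le _ _ (Q * Q.transpose) fun p hp => ?_).trans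
      ((Matrix.rank_mul_le_left _ _).trans (by simpa using Matrix.rank_le_card_width Q))
    have := kcol p.1 p.2 hp
    simp only [Matrix.mul_apply, Matrix.transpose_apply, Q, a0, ite_mul, one_mul, zero_mul,
      Finset.sum_ite_eq, Finset.mem_univ, if_true, eq_comm (a := col p.2), this]
    by_cases h1 : p.1.2 = p.2.2 <;> simp [h1]
  refine le_trans (b := (mrb J0 (a0 F) 2 : ℝ) / (2 : ℕ)) (csInf_le ⟨0, ?_⟩ ⟨2, by norm_num, rfl⟩) ?_
  · rintro x ⟨b, -, rfl⟩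
    positivity
  · have : (mrb J0 (a0 F) 2 : ℝ) ≤ 10 := by exact_mod_cast h
    push_cast
    linarith

def e3 (i : Fin 5) : Fin 15 := ⟨i.1 + 10, by omega⟩

lemma tm (F : Type) [Field F] : 5 ≤ tmr J0 (a0 F) := by
  have h1 : MaxTri J0 T0 := by
    refine ⟨fun p hp => ?_, fun p hp q hq => Or.inl ⟨hp.1, hq.2⟩, fun S h1 h2 h3 => ?_⟩
    · simp [J0, kn, hp.1, hp.2]
    · refine Set.Subset.antisymm (fun p hp => ?_) h1
      have k : ∀ i j : Fin 15, kn i j = true → kn i 10 = true ∨ kn 10 j = true →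
          10 ≤ i.1 ∧ 10 ≤ j.1 := by decide +kernel
      exact k p.1 p.2 (h2 hp) ((h3 p hp (10, 10) (h1 ⟨le_rfl, le_rfl⟩)).imp (@h2 _) (@h2 _))
  have h2 : 5 ≤ mr T0 (a0 F) := by
    refine le_mr _ _ _ fun B hB => ?_
    have e : B.submatrix e3 e3 = 1 := by
      ext i j
      rw [Matrix.submatrix_apply, hB (e3 i, e3 j) ⟨by simp [e3], by simp [e3]⟩]
      simp [a0, Matrix.one_apply, e3, Fin.ext_iff]
    simpa using rk B e3 e3 (by simp [e])
  refine h2.trans (le_csSup ⟨15, ?_⟩ ⟨T0, h1, rfl⟩)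
  rintro r ⟨T, -, rfl⟩
  exact (mr_le _ _ (Matrix.of (a0 F)) fun _ _ => rfl).trans (Matrix.rank_le_width _)

lemma c5 {F : Type} [Field F] (M : Fin 5 → Fin 5 → F) (h1 : ∀ i, M i i = 1)
    (h2 : ∀ i, M i (i + 2) = 0) (h3 : ∀ i, M i (i + 3) = 0) :
    ∃ r c : Fin 3 → Fin 5, ((Matrix.of M).submatrix r c).det ≠ 0 := by
  have a0 : M 0 2 = 0 := h2 0
  have a1 : M 1 3 = 0 := h2 1
  have a2 : M 2 4 = 0 := h2 2
  have a3 : M 3 0 = 0 := h2 3
  have a4 : M 4 1 = 0 := h2 4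
  have b0 : M 0 3 = 0 := h3 0
  have b1 : M 1 4 = 0 := h3 1
  have b2 : M 2 0 = 0 := h3 2
  by_cases c1 : M 3 4 = 0
  · by_cases c2 : M 2 3 = 0
    · exact ⟨![0, 2, 3], ![0, 2, 3], by simp [Matrix.det_fin_three, *]⟩
    · exact ⟨![4, 1, 2], ![4, 1, 3], by simp [Matrix.det_fin_three, *]⟩
  · exact ⟨![0, 2, 3], ![0, 2, 4], by simp [Matrix.det_fin_three, *]⟩

def e1 (i : Fin 5) : Fin 15 := ⟨i.1, by omega⟩
def e2 (i : Fin 5) : Fin 15 := ⟨i.1 + 5, by omega⟩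

lemma mm (F : Type) [Field F] : 6 ≤ mr J0 (a0 F) := by
  refine le_mr _ _ _ fun B hB => ?_
  have z : ∀ i j, kn i j = true ∧ i ≠ j → B i j = 0 := fun i j h => by
    rw [hB (i, j) h.1]; simp [a0, h.2]
  have o : ∀ i, B i i = 1 := fun i => by
    rw [hB (i, i) ((by decide : ∀ i, kn i i = true) i)]; simp [a0]
  obtain ⟨r, c, h⟩ := c5 (fun i j => B (e1 i) (e1 j)) (fun i => o _)
    (fun i => z _ _ (by revert i; decide)) (fun i => z _ _ (by revert i; decide))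
  obtain ⟨r', c', h'⟩ := c5 (fun i j => B (e2 i) (e2 j)) (fun i => o _)
    (fun i => z _ _ (by revert i; decide)) (fun i => z _ _ (by revert i; decide))
  have k : ∀ i j, kn (e2 i) (e1 j) = true ∧ e2 i ≠ e1 j := by decide
  have e : B.submatrix (Sum.elim (e1 ∘ r) (e2 ∘ r')) (Sum.elim (e1 ∘ c) (e2 ∘ c')) =
      Matrix.fromBlocks ((Matrix.of fun i j => B (e1 i) (e1 j)).submatrix r c)
        (B.submatrix (e1 ∘ r) (e2 ∘ c')) 0
        ((Matrix.of fun i j => B (e2 i) (e2 j)).submatrix r' c') := by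
    ext (i | i) (j | j)
    · rfl
    · rfl
    · exact z _ _ (k _ _)
    · rfl
  simpa using rk B (Sum.elim (e1 ∘ r) (e2 ∘ r')) (Sum.elim (e1 ∘ c) (e2 ∘ c'))
    (by rw [e, Matrix.det_fromBlocks_zero₂₁]; exact mul_ne_zero h h')

theorem result (F : Type) [Field F] :
    ∃ (m n : ℕ) (J : Set (Fin m × Fin n)) (a : Fin m → Fin n → F),
      ¬ (((tmr J a : ℝ) < fmr J a ∧ fmr J a < mr J a) ∨
        ((tmr J a : ℝ) = fmr J a ∧ fmr J a = mr J a)) := by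
  refine ⟨15, 15, J0, a0 F, ?_⟩
  have h1 := fm F
  have h2 : (5 : ℝ) ≤ tmr J0 (a0 F) := by exact_mod_cast tm F
  have h3 : (6 : ℝ) ≤ mr J0 (a0 F) := by exact_mod_cast mm F
  rintro (⟨h, -⟩ | ⟨-, h⟩) <;> linarith

end Pool.Agent.Results.MP_f8e91b_al.Counter
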